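import Pool.Agent.helper20.VVO.Spec

/-!
# Row LEV of project vvo (MP_069684_lc): one density
-/

set_option autoImplicit false

open Filter Topology

namespace Pool.Agent.VVO

open Pool.Agent.PB Pool.Agent.ISO Pool.Agent.ISA

theorem LEV_bin_nonneg (j κ : ℕ) {x : ℝ} (h0 : 0 ≤ x) (h1 : x ≤ 1) : 0 ≤ bin j κ x := by
  unfold bin
  refine Finset.sum_nonneg fun r _ => ?_
  have := sub_nonneg.2 h1
  positivity

theorem LEV_pois_nonneg (j : ℕ) {x : ℝ} (h0 : 0 ≤ x) : 0 ≤ pois j x := by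
  unfold pois
  refine Finset.sum_nonneg fun i _ => ?_
  positivity

theorem LEV_ind_nonneg (P : Prop) : 0 ≤ ind P := by
  unfold ind
  split_ifs <;> norm_num

open Classical in
/-- the inner double sum -/
noncomputable def LEV_in (w r j : ℕ) (K : Finset (Fin w → Bool)) (x : ℝ) : ℝ :=
  ∑ A : Fin r → Fin w → Bool, ∑ T : Finset (Fin r → Bool), x ^ T.card * (1 - x) ^ (2 ^ r - T.card) *
      ind (1 ≤ (K.filter fun y => lin A y ∈ T).card ∧ (K.filter fun y => lin A y ∈ T).card ≤ j)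

theorem LEV_in_nonneg (w r j : ℕ) (K : Finset (Fin w → Bool)) {x : ℝ} (h0 : 0 ≤ x) (h1 : x ≤ 1) :
    0 ≤ LEV_in w r j K x := by
  unfold LEV_in
  refine Finset.sum_nonneg fun A _ => Finset.sum_nonneg fun T _ => ?_
  have h2 := sub_nonneg.2 h1
  have h3 := LEV_ind_nonneg (1 ≤ (K.filter fun y => lin A y ∈ T).card ∧
    (K.filter fun y => lin A y ∈ T).card ≤ j)
  refine mul_nonneg (mul_nonneg (pow_nonneg h0 _) (pow_nonneg h2 _)) ?_
  exact LEV_ind_nonneg _

theorem LEV_tsm (hTSM : TSM_stmt) (w r j : ℕ) (K : Finset (Fin w → Bool)) {x v δ : ℝ} (h0 : 0 ≤ x)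
    (h1 : x ≤ 1) (hδ1 : δ ≤ 1) (hK : (K.card : ℝ) ^ 2 ≤ δ * (2 * 2 ^ r))
    (hv0 : 0 ≤ v) (hv : v ≤ bin j K.card x) :
    (1 - δ) * v * (Fintype.card (Fin r → Fin w → Bool) : ℝ) ≤ LEV_in w r j K x := by
  have h2 := (hTSM w r j K x h0 h1).2
  have h3 : (K.card : ℝ) ^ 2 / (2 * 2 ^ r) ≤ δ := by
    rw [div_le_iff₀ (by positivity)]
    exact hK
  have h4 : (0 : ℝ) ≤ Fintype.card (Fin r → Fin w → Bool) := Nat.cast_nonneg _
  have h5 : (1 - δ) * v ≤ (1 - (K.card : ℝ) ^ 2 / (2 * 2 ^ r)) * bin j K.card x := by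
    calc (1 - δ) * v ≤ (1 - (K.card : ℝ) ^ 2 / (2 * 2 ^ r)) * v :=
          mul_le_mul_of_nonneg_right (by linarith) hv0
      _ ≤ _ := mul_le_mul_of_nonneg_left hv (by linarith)
  exact (mul_le_mul_of_nonneg_right h5 h4).trans h2

theorem LEV_sum {α : Type} [Fintype α] (f : α → ℝ) (G : Finset α) (c δ : ℝ) (hc : 0 ≤ c)
    (hf : ∀ a, 0 ≤ f a) (hG : ∀ a ∈ G, c ≤ f a) (hcard : (1 - δ) * Fintype.card α ≤ G.card) :
    (1 - δ) * Fintype.card α * c ≤ ∑ a, f a := by
  calc (1 - δ) * Fintype.card α * c ≤ G.card * c := mul_le_mul_of_nonneg_right hcard hc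
    _ = ∑ a ∈ G, c := by rw [Finset.sum_const, nsmul_eq_mul]
    _ ≤ ∑ a ∈ G, f a := Finset.sum_le_sum hG
    _ ≤ ∑ a, f a := Finset.sum_le_sum_of_subset_of_nonneg (Finset.subset_univ _)
        (fun a _ _ => hf a)

open Classical in
/-- the good affine conditions -/
theorem LEV_good (hCHB : CHB_stmt) (w t : ℕ) (K : Finset (Fin w → Bool)) {δ δ1 : ℝ}
    (hδ : 0 ≤ δ) (hδ1 : 0 < δ1) (hK : 0 < K.card) (h : 1 ≤ δ * (δ1 ^ 2 * (K.card / 2 ^ t : ℝ))) :
    (1 - δ) * (Fintype.card (Fin t → (Fin w → Bool) × Bool) : ℝ) ≤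
      (Finset.univ.filter fun a : Fin t → (Fin w → Bool) × Bool =>
        |((K.filter fun y => asat a y).card : ℝ) - K.card / 2 ^ t| ≤ δ1 * (K.card / 2 ^ t)).card := by
  obtain ⟨M, hM⟩ : ∃ M : ℝ, M = K.card / 2 ^ t := ⟨_, rfl⟩
  obtain ⟨N, hN⟩ : ∃ N : ℝ, N = Fintype.card (Fin t → (Fin w → Bool) × Bool) := ⟨_, rfl⟩
  have h1 := hCHB w t K
  rw [← hM, ← hN] at h1
  rw [← hM] at h
  rw [← hM, ← hN]
  have hM0 : 0 < M := by
    rw [hM]
    have : (0 : ℝ) < K.card := by exact_mod_cast hK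
    positivity
  obtain ⟨bad, hbad⟩ : ∃ bad, bad = Finset.univ.filter fun a : Fin t → (Fin w → Bool) × Bool =>
    ¬ |((K.filter fun y => asat a y).card : ℝ) - M| ≤ δ1 * M := ⟨_, rfl⟩
  have h2 : (bad.card : ℝ) * (δ1 * M) ^ 2 ≤ M * N := by
    calc (bad.card : ℝ) * (δ1 * M) ^ 2 = ∑ a ∈ bad, (δ1 * M) ^ 2 := by
          rw [Finset.sum_const, nsmul_eq_mul]
      _ ≤ ∑ a ∈ bad, (((K.filter fun y => asat a y).card : ℝ) - M) ^ 2 := by
          refine Finset.sum_le_sum fun a ha => ?_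
          rw [hbad, Finset.mem_filter] at ha
          rw [← sq_abs (((K.filter fun y => asat a y).card : ℝ) - M)]
          exact pow_le_pow_left₀ (by positivity) (not_le.1 ha.2).le 2
      _ ≤ ∑ a : Fin t → (Fin w → Bool) × Bool, (((K.filter fun y => asat a y).card : ℝ) - M) ^ 2 :=
          Finset.sum_le_sum_of_subset_of_nonneg (Finset.subset_univ _)
            (fun a _ _ => sq_nonneg _)
      _ ≤ _ := h1
  have h3 : (bad.card : ℝ) * (δ1 ^ 2 * M) ≤ N := by
    have : (bad.card : ℝ) * (δ1 ^ 2 * M) * M ≤ N * M := by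
      calc (bad.card : ℝ) * (δ1 ^ 2 * M) * M = (bad.card : ℝ) * (δ1 * M) ^ 2 := by ring
        _ ≤ M * N := h2
        _ = N * M := mul_comm _ _
    exact le_of_mul_le_mul_right this hM0
  have h4 : (bad.card : ℝ) ≤ δ * N := by
    have hb : (0 : ℝ) ≤ bad.card := Nat.cast_nonneg _
    calc (bad.card : ℝ) = bad.card * 1 := (mul_one _).symm
      _ ≤ bad.card * (δ * (δ1 ^ 2 * M)) := mul_le_mul_of_nonneg_left h hb
      _ = δ * (bad.card * (δ1 ^ 2 * M)) := by ring
      _ ≤ δ * N := mul_le_mul_of_nonneg_left h3 hδ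
  have h5 := Finset.card_filter_add_card_filter_not (s := (Finset.univ : Finset (Fin t → (Fin w → Bool) × Bool)))
    (fun a => |((K.filter fun y => asat a y).card : ℝ) - M| ≤ δ1 * M)
  have h6 : (((Finset.univ.filter fun a : Fin t → (Fin w → Bool) × Bool =>
      |((K.filter fun y => asat a y).card : ℝ) - M| ≤ δ1 * M).card : ℝ)) + bad.card = N := by
    rw [hbad, hN, ← Nat.cast_add, h5, Finset.card_univ]
  linarith

open Classical in
theorem LEV_rw (w t r j : ℕ) (K : Finset (Fin w → Bool)) (x : ℝ) :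
    (∑ a : Fin t → (Fin w → Bool) × Bool, ∑ A : Fin r → Fin w → Bool, ∑ T : Finset (Fin r → Bool),
      x ^ T.card * (1 - x) ^ (2 ^ r - T.card) *
        ind (1 ≤ (K.filter fun y => asat a y ∧ lin A y ∈ T).card ∧
          (K.filter fun y => asat a y ∧ lin A y ∈ T).card ≤ j)) =
      ∑ a : Fin t → (Fin w → Bool) × Bool, LEV_in w r j (K.filter fun y => asat a y) x := by
  unfold LEV_in
  simp only [Finset.filter_filter]

/-- the number of doublings -/
theorem LEV_t {b d : ℝ} (hb : 0 < b) (hd : 0 < d) (hdb : d < b) :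
    ∃ t : ℕ, b ≤ 2 ^ t * d ∧ 2 ^ t * d < 2 * b := by
  have hex : ∃ t : ℕ, b ≤ 2 ^ t * d := by
    obtain ⟨t, ht⟩ := pow_unbounded_of_one_lt (b / d) (one_lt_two (α := ℝ))
    exact ⟨t, by rw [div_lt_iff₀ hd] at ht; exact ht.le⟩
  classical
  refine ⟨Nat.find hex, Nat.find_spec hex, ?_⟩
  have h0 : Nat.find hex ≠ 0 := by
    intro h
    have := Nat.find_spec hex
    rw [h, pow_zero, one_mul] at this
    linarith
  obtain ⟨k, hk⟩ := Nat.exists_eq_succ_of_ne_zero h0
  have h1 := Nat.find_min hex (m := k) (by omega)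
  rw [not_le] at h1
  rw [hk, pow_succ]
  linarith

theorem LEV (hCHB : CHB_stmt) (hTSM : TSM_stmt) (hPBC : PBC_stmt) : LEV_stmt := by
  classical
  intro j δ lo hi hδ hδ1 hlo hlo1 hhi
  obtain ⟨η, hη⟩ : ∃ η : ℝ, η = δ / 4 := ⟨_, rfl⟩
  have hη0 : 0 < η := by rw [hη]; linarith
  have hη1 : η ≤ 1 := by rw [hη]; linarith
  obtain ⟨δ1, x1, hD1, hD1', hx1, hx1', hP⟩ := hPBC j η lo hi hη0 hlo (by linarith)
  obtain ⟨κ0, hκ0⟩ := exists_nat_ge (max hi (hi / x1))
  have hκa : hi ≤ κ0 := (le_max_left _ _).trans hκ0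
  have hκb : hi ≤ κ0 * x1 := by
    have := (le_max_right _ _).trans hκ0
    rwa [div_le_iff₀ hx1] at this
  have hκpos : (0 : ℝ) < κ0 := by linarith
  obtain ⟨b, hb⟩ : ∃ b : ℝ, b = min (x1 / 2) (min (δ / κ0) (η * δ1 ^ 2 * lo / 2)) := ⟨_, rfl⟩
  have hb0 : 0 < b := by
    rw [hb]
    refine lt_min (by positivity) (lt_min (by positivity) (by positivity))
  have hbx : b ≤ x1 / 2 := by rw [hb]; exact min_le_left _ _
  have hbδ : κ0 * b ≤ δ := by
    have : b ≤ δ / κ0 := by rw [hb]; exact (min_le_right _ _).trans (min_le_left _ _)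
    rw [le_div_iff₀ hκpos] at this
    linarith
  have hbl : 2 * b ≤ η * δ1 ^ 2 * lo := by
    have : b ≤ η * δ1 ^ 2 * lo / 2 := by
      rw [hb]; exact (min_le_right _ _).trans (min_le_right _ _)
    linarith
  obtain ⟨r, hr⟩ := pow_unbounded_of_one_lt (max ((2 * hi / b) ^ 2 / (η * 2)) ((κ0 : ℝ) ^ 2 / (η * 2)))
    (one_lt_two (α := ℝ))
  have hr1 : (2 * hi / b) ^ 2 ≤ η * (2 * 2 ^ r) := by
    have := (le_max_left _ _).trans hr.le
    rw [div_le_iff₀ (by positivity)] at this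
    linarith
  have hr2 : (κ0 : ℝ) ^ 2 ≤ η * (2 * 2 ^ r) := by
    have := (le_max_right _ _).trans hr.le
    rw [div_le_iff₀ (by positivity)] at this
    linarith
  have hcube : 1 - δ ≤ (1 - η) * ((1 - η) * (1 - η)) := by
    have h1 : 0 ≤ η ^ 2 * (3 - η) := by
      have : 0 ≤ 3 - η := by linarith
      positivity
    have h2 : δ = 4 * η := by rw [hη]; ring
    rw [h2]
    nlinarith
  have hsq : 1 - δ ≤ (1 - η) * (1 - η) := by
    have h2 : δ = 4 * η := by rw [hη]; ring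
    rw [h2]
    nlinarith [sq_nonneg η]
  have hone : 1 - δ ≤ 1 - η := by rw [hη]; linarith
  refine ⟨κ0, r, b, hb0, by linarith, hκa, hbδ, ?_⟩
  intro w d hd0 hd1
  -- the choice of `t`
  have hchoice : ∃ (t : ℕ) (x : ℝ), x = 2 ^ t * d ∧ b ≤ x ∧ x ≤ 1 ∧ ((t = 0 ∧ b ≤ d) ∨ (d < b ∧ x < 2 * b)) := by
    by_cases hdb : b ≤ d
    · exact ⟨0, d, by rw [pow_zero, one_mul], hdb, hd1, Or.inl ⟨rfl, hdb⟩⟩
    · push Not at hdb
      obtain ⟨t, ht1, ht2⟩ := LEV_t hb0 hd0 hdb
      exact ⟨t, 2 ^ t * d, rfl, ht1, by linarith, Or.inr ⟨hdb, ht2⟩⟩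
  obtain ⟨t, x, hx, hbx', hx1'', hcase⟩ := hchoice
  have hx0 : 0 < x := lt_of_lt_of_le hb0 hbx'
  refine ⟨t, x, hx0.le, hx1'', by rw [← hx]; exact hx1'', ?_⟩
  intro K hK
  rw [LEV_rw]
  obtain ⟨Nt, hNt⟩ : ∃ Nt : ℝ, Nt = Fintype.card (Fin t → (Fin w → Bool) × Bool) := ⟨_, rfl⟩
  obtain ⟨NA, hNA⟩ : ∃ NA : ℝ, NA = Fintype.card (Fin r → Fin w → Bool) := ⟨_, rfl⟩
  have hNt0 : 0 ≤ Nt := by rw [hNt]; exact Nat.cast_nonneg _
  have hNA0 : 0 ≤ NA := by rw [hNA]; exact Nat.cast_nonneg _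
  rw [← hNt, ← hNA]
  have hnn : ∀ a : Fin t → (Fin w → Bool) × Bool,
      0 ≤ LEV_in w r j (K.filter fun y => asat a y) x := fun a =>
    LEV_in_nonneg _ _ _ _ hx0.le hx1''
  have hzero : GG δ b lo hi κ0 j K.card d = 0 → GG δ b lo hi κ0 j K.card d * (Nt * NA) ≤
      ∑ a : Fin t → (Fin w → Bool) × Bool, LEV_in w r j (K.filter fun y => asat a y) x := by
    intro h
    rw [h, zero_mul]
    exact Finset.sum_nonneg fun a _ => hnn a
  -- the case `t = 0`
  have ht0 : ∀ v : ℝ, 0 ≤ v → t = 0 → (K.card : ℝ) ^ 2 ≤ η * (2 * 2 ^ r) → v ≤ bin j K.card x →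
      (1 - η) * v * (Nt * NA) ≤
      ∑ a : Fin t → (Fin w → Bool) × Bool, LEV_in w r j (K.filter fun y => asat a y) x := by
    intro v hv0 ht hKc hv
    have h1 : ∀ a : Fin t → (Fin w → Bool) × Bool, (K.filter fun y => asat a y) = K := by
      intro a
      refine Finset.filter_true_of_mem fun y _ i => ?_
      subst ht
      exact i.elim0
    have h2 := LEV_tsm hTSM w r j K hx0.le hx1'' hη1 hKc hv0 hv
    rw [← hNA] at h2
    calc (1 - η) * v * (Nt * NA) = Nt * ((1 - η) * v * NA) := by ring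
      _ ≤ Nt * LEV_in w r j K x := mul_le_mul_of_nonneg_left h2 hNt0
      _ = ∑ a : Fin t → (Fin w → Bool) × Bool, LEV_in w r j (K.filter fun y => asat a y) x := by
        simp only [h1]
        rw [Finset.sum_const, Finset.card_univ, nsmul_eq_mul, hNt]
  by_cases hκ : K.card ≤ κ0
  · by_cases hbd : b ≤ d
    · have ht : t = 0 := by
        rcases hcase with h | h
        · exact h.1
        · exact absurd hbd (not_le.2 h.1)
      have hxd : x = d := by rw [hx, ht, pow_zero, one_mul]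
      have hG : GG δ b lo hi κ0 j K.card d = (1 - δ) * bin j K.card d := by
        unfold GG
        rw [if_pos hκ, if_pos hbd]
      rw [hG]
      have hb' : 0 ≤ bin j K.card x := LEV_bin_nonneg _ _ hx0.le hx1''
      have hKc : (K.card : ℝ) ^ 2 ≤ η * (2 * 2 ^ r) := by
        refine le_trans ?_ hr2
        have : (K.card : ℝ) ≤ κ0 := by exact_mod_cast hκ
        exact pow_le_pow_left₀ (Nat.cast_nonneg _) this 2
      have h3 := ht0 (bin j K.card x) hb' ht hKc le_rfl
      refine le_trans ?_ h3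
      rw [hxd]
      rw [hxd] at hb'
      have : 0 ≤ Nt * NA := by positivity
      refine mul_le_mul_of_nonneg_right ?_ this
      exact mul_le_mul_of_nonneg_right hone hb'
    · refine hzero ?_
      unfold GG
      rw [if_pos hκ, if_neg hbd]
  · by_cases hl : lo ≤ K.card * d ∧ K.card * d ≤ hi
    swap
    · refine hzero ?_
      unfold GG
      rw [if_neg hκ, if_neg hl]
    obtain ⟨lam, hlam⟩ : ∃ lam : ℝ, lam = K.card * d := ⟨_, rfl⟩
    have hG : GG δ b lo hi κ0 j K.card d = (1 - δ) * pois j lam := by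
      unfold GG
      rw [if_neg hκ, if_pos hl, hlam]
    rw [← hlam] at hl
    rw [hG]
    have hp0 : 0 ≤ pois j lam := LEV_pois_nonneg j (by linarith)
    have hκ' : (κ0 : ℝ) < K.card := by exact_mod_cast not_le.1 hκ
    have hKpos : (0 : ℝ) < K.card := by linarith
    rcases hcase with ⟨ht, hbd⟩ | ⟨hdb, hx2b⟩
    · -- `t = 0`
      have hxd : x = d := by rw [hx, ht, pow_zero, one_mul]
      have hxx1 : x ≤ x1 := by
        rw [hxd]
        have h1 : κ0 * d ≤ κ0 * x1 := by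
          have : κ0 * d ≤ K.card * d := mul_le_mul_of_nonneg_right hκ'.le hd0.le
          linarith [hl.2]
        exact le_of_mul_le_mul_left h1 hκpos
      have h1 : (1 - η) * pois j lam ≤ bin j K.card x := by
        refine hP K.card x lam hx0 hxx1 hl.1 hl.2 ?_
        rw [hxd, ← hlam, sub_self, abs_zero]
        have : 0 < lam := by linarith
        positivity
      have hKc : (K.card : ℝ) ^ 2 ≤ η * (2 * 2 ^ r) := by
        refine le_trans ?_ hr1
        refine pow_le_pow_left₀ (Nat.cast_nonneg _) ?_ 2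
        rw [le_div_iff₀ hb0]
        have : K.card * b ≤ K.card * d := mul_le_mul_of_nonneg_left hbd hKpos.le
        linarith [hl.2]
      have h2 := ht0 ((1 - η) * pois j lam) (mul_nonneg (by linarith) hp0) ht hKc h1
      refine le_trans ?_ h2
      have : 0 ≤ Nt * NA := by positivity
      refine mul_le_mul_of_nonneg_right ?_ this
      rw [← mul_assoc]
      exact mul_le_mul_of_nonneg_right hsq hp0
    · -- `t ≥ 1`
      obtain ⟨M, hM⟩ : ∃ M : ℝ, M = K.card / 2 ^ t := ⟨_, rfl⟩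
      have hMx : M * x = lam := by
        rw [hM, hx, hlam]
        field_simp
      have hM0 : 0 < M := by rw [hM]; positivity
      have hxx1 : x ≤ x1 := by linarith
      have hgood := LEV_good hCHB w t K hη0.le hD1 hK (by
        rw [← hM]
        have h1 : lo ≤ M * (2 * b) := by
          calc lo ≤ lam := hl.1
            _ = M * x := hMx.symm
            _ ≤ M * (2 * b) := mul_le_mul_of_nonneg_left hx2b.le hM0.le
        have h2 : lo ≤ M * (η * δ1 ^ 2 * lo) :=
          h1.trans (mul_le_mul_of_nonneg_left hbl hM0.le)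
        have h3 : 1 * lo ≤ (η * (δ1 ^ 2 * M)) * lo := by linarith
        exact le_of_mul_le_mul_right h3 hlo)
      rw [← hM, ← hNt] at hgood
      have h1 : ∀ a ∈ (Finset.univ.filter fun a : Fin t → (Fin w → Bool) × Bool =>
          |((K.filter fun y => asat a y).card : ℝ) - M| ≤ δ1 * M),
          (1 - η) * ((1 - η) * pois j lam) * NA ≤
            LEV_in w r j (K.filter fun y => asat a y) x := by
        intro a ha
        rw [Finset.mem_filter] at ha
        have ha2 := ha.2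
        obtain ⟨κ', hκ'⟩ : ∃ κ' : ℕ, κ' = (K.filter fun y => asat a y).card := ⟨_, rfl⟩
        rw [← hκ'] at ha2
        have h2 : |κ' * x - lam| ≤ δ1 * lam := by
          rw [← hMx, ← sub_mul, abs_mul, abs_of_pos hx0, ← mul_assoc]
          exact mul_le_mul_of_nonneg_right ha2 hx0.le
        have h3 := hP κ' x lam hx0 hxx1 hl.1 hl.2 h2
        have h4 : (κ' : ℝ) ≤ 2 * hi / b := by
          rw [le_div_iff₀ hb0]
          have h5 : κ' * x ≤ 2 * hi := by
            have h6 := (abs_le.1 h2).2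
            have h7 : δ1 * lam ≤ 1 * lam := mul_le_mul_of_nonneg_right hD1' (by linarith)
            linarith [hl.2]
          exact (mul_le_mul_of_nonneg_left hbx' (Nat.cast_nonneg _)).trans h5
        have hKc : (((K.filter fun y => asat a y).card : ℕ) : ℝ) ^ 2 ≤ η * (2 * 2 ^ r) := by
          rw [← hκ']
          exact (pow_le_pow_left₀ (Nat.cast_nonneg _) h4 2).trans hr1
        rw [hκ'] at h3
        have h8 := LEV_tsm hTSM w r j (K.filter fun y => asat a y) hx0.le hx1'' hη1 hKc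
          (mul_nonneg (by linarith) hp0) h3
        rw [← hNA] at h8
        exact h8
      have hc0 : 0 ≤ (1 - η) * ((1 - η) * pois j lam) * NA := by
        have : 0 ≤ 1 - η := by linarith
        positivity
      have h9 := LEV_sum (fun a : Fin t → (Fin w → Bool) × Bool =>
        LEV_in w r j (K.filter fun y => asat a y) x) _ _ η hc0 hnn h1 (by rw [← hNt]; exact hgood)
      rw [← hNt] at h9
      refine le_trans ?_ h9
      have e : (1 - η) * Nt * ((1 - η) * ((1 - η) * pois j lam) * NA) =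
          ((1 - η) * ((1 - η) * (1 - η))) * pois j lam * (Nt * NA) := by ring
      rw [e]
      have : 0 ≤ Nt * NA := by positivity
      refine mul_le_mul_of_nonneg_right ?_ this
      exact mul_le_mul_of_nonneg_right hcube hp0

end Pool.Agent.VVO
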